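import Pool.Agent.Helper82.EM.WKE
import Pool.Agent.Helper78.EM.FXH
import Pool.Agent.Helper82.D2.TRP

/-!
# FINH: absolute Hodge tensors of Hodge structures with endomorphisms
-/

set_option autoImplicit false

namespace EH.H12

open Matrix Pool.Agent.Helper82.AHS Pool.Agent.Helper21.TH

variable {r : ℕ}

/-- scalars act trivially on tensors of type `(m, m)` -/
theorem smul_act_self {K : Type} [Field K] {m : ℕ} (ρ : Kˣ) (g : GL (Fin r) K)
    (t : T r m m K) : act (ρ • g) t = act g t := by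
  rw [Trp.smul_act, inv_pow, mul_inv_cancel₀ (pow_ne_zero m ρ.ne_zero), one_smul]

/-- a matrix which fixes `t11 X` commutes with `X` -/
theorem comm_of_fix {g : GL (Fin r) ℂ} {X : Matrix (Fin r) (Fin r) ℚ}
    (h1 : act g (up ℂ (t11 X)) = up ℂ (t11 X)) :
    (g : Matrix (Fin r) (Fin r) ℂ) * X.map (algebraMap ℚ ℂ) =
      X.map (algebraMap ℚ ℂ) * (g : Matrix (Fin r) (Fin r) ℂ) := by
  have e2 := gl_inv_mul g
  rw [up_t11, H82.act_t11] at h1
  have h2 := t11_inj h1
  calc (g : Matrix (Fin r) (Fin r) ℂ) * X.map (algebraMap ℚ ℂ)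
      = (g : Matrix (Fin r) (Fin r) ℂ) * X.map (algebraMap ℚ ℂ) *
        (((g⁻¹ : GL (Fin r) ℂ) : Matrix (Fin r) (Fin r) ℂ) *
          (g : Matrix (Fin r) (Fin r) ℂ)) := by rw [e2, Matrix.mul_one]
    _ = ((g : Matrix (Fin r) (Fin r) ℂ) * X.map (algebraMap ℚ ℂ) *
        ((g⁻¹ : GL (Fin r) ℂ) : Matrix (Fin r) (Fin r) ℂ)) *
          (g : Matrix (Fin r) (Fin r) ℂ) := by simp only [Matrix.mul_assoc]
    _ = _ := by rw [h2]

end EH.H12

namespace EH

open Matrix Pool.Agent.Helper82.AHS Pool.Agent.Helper21.TH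

/-- Row FINH. -/
theorem st_FINH (wke : ST_WKE) (fxh : ST_FXH) : ST_FINH := by
  intro r S w c w' h P x hAda hGood σ hpolA hendA
  refine ⟨wke r S w c w' h P x hAda hGood σ hpolA hendA, fun hR m n t ht hcase hsize => ?_⟩
  have hQ := S.pol
  have hpure := hAda.pure
  obtain ⟨hdet, -, -, hrel⟩ := st_SYM r S.V w S.Q hpure hQ
  have hpol : S.V.Hodge (polT S.Q) := ((st_KPL r ℂ S.Q S.V.D hdet).1).mpr ⟨(w : ℂ), hrel⟩
  have hend : ∀ X, IsEnd S.V X → S.V.Hodge (t11 X) := by
    intro X hX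
    rw [S.V.hodge_iff, up_t11, kill_t11]
    exact hX.symm
  obtain ⟨hF1, hF2⟩ := fxh r S.V w c w' h P x S.Q hQ hAda hGood hR m n t ht
  by_cases hmn : m = n
  · subst hmn
    refine st_PRA r S σ m m t (fun g hg => ?_) (fun y hy => ?_)
    · obtain ⟨d, hd0, hd⟩ := (st_SML r ℂ S.Q S.Q g hdet hdet).1 (hg 2 2 _ hpol hpolA).symm
      have hgX : ∀ X, IsEnd S.V X → (g : Matrix (Fin r) (Fin r) ℂ) * X.map (algebraMap ℚ ℂ) =
          X.map (algebraMap ℚ ℂ) * (g : Matrix (Fin r) (Fin r) ℂ) := fun X hX =>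
        H12.comm_of_fix (hg 1 1 _ (hend X hX) (hendA X hX))
      obtain ⟨e, he'⟩ := IsAlgClosed.exists_pow_nat_eq d (show 0 < 2 by norm_num)
      have he : d = e * e := by rw [← he', pow_two]
      have he0 : e ≠ 0 := by
        rintro rfl
        rw [mul_zero] at he
        exact hd0 he
      have h1 := hF2 hsize ((Units.mk0 e he0)⁻¹ • g) ?_ ?_
      · rwa [H12.smul_act_self] at h1
      · have h2 : (((Units.mk0 e he0)⁻¹ • g : GL (Fin r) ℂ) : Matrix (Fin r) (Fin r) ℂ) =
            e⁻¹ • (g : Matrix (Fin r) (Fin r) ℂ) := by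
          change (((Units.mk0 e he0)⁻¹ : ℂˣ) : ℂ) • (g : Matrix (Fin r) (Fin r) ℂ) = _
          rw [Units.val_inv_eq_inv_val, Units.val_mk0]
        rw [h2, Matrix.transpose_smul, Matrix.smul_mul, Matrix.smul_mul, Matrix.mul_smul, hd,
          smul_smul, smul_smul, he]
        have h3 : e⁻¹ * e⁻¹ * (e * e) = 1 := by field_simp
        rw [h3, one_smul]
      · intro X hX
        have h2 : (((Units.mk0 e he0)⁻¹ • g : GL (Fin r) ℂ) : Matrix (Fin r) (Fin r) ℂ) =
            e⁻¹ • (g : Matrix (Fin r) (Fin r) ℂ) := by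
          change (((Units.mk0 e he0)⁻¹ : ℂˣ) : ℂ) • (g : Matrix (Fin r) (Fin r) ℂ) = _
          rw [Units.val_inv_eq_inv_val, Units.val_mk0]
        rw [h2, Matrix.smul_mul, Matrix.mul_smul, hgX X hX]
    · obtain ⟨d, hd⟩ := ((st_KPL r ℂ S.Q y hdet).1).mp (hy 2 2 _ hpol hpolA)
      have hyX : ∀ X, IsEnd S.V X → y * X.map (algebraMap ℚ ℂ) =
          X.map (algebraMap ℚ ℂ) * y := by
        intro X hX
        have h1 := hy 1 1 _ (hend X hX) (hendA X hX)
        rw [up_t11] at h1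
        exact kill_t11.mp h1
      have h1 := hF1 (y - (d / 2) • 1) ?_ ?_
      · rw [dr_sub, dr_smul, dr_one_eq, Matrix.sub_mul, Matrix.mul_sub] at h1
        simp only [Matrix.smul_mul, Matrix.mul_smul, Matrix.one_mul, Matrix.mul_one] at h1
        exact sub_left_injective h1
      · rw [Matrix.transpose_sub, Matrix.transpose_smul, Matrix.transpose_one, Matrix.sub_mul,
          Matrix.mul_sub, Matrix.smul_mul, Matrix.mul_smul, Matrix.one_mul, Matrix.mul_one]
        have h2 : d • S.Q.map (algebraMap ℚ ℂ) = (d / 2) • S.Q.map (algebraMap ℚ ℂ) +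
            (d / 2) • S.Q.map (algebraMap ℚ ℂ) := by rw [← add_smul, add_halves]
        rw [h2] at hd
        calc yᵀ * S.Q.map (algebraMap ℚ ℂ) - (d / 2) • S.Q.map (algebraMap ℚ ℂ) +
              (S.Q.map (algebraMap ℚ ℂ) * y - (d / 2) • S.Q.map (algebraMap ℚ ℂ))
            = (yᵀ * S.Q.map (algebraMap ℚ ℂ) + S.Q.map (algebraMap ℚ ℂ) * y) -
              ((d / 2) • S.Q.map (algebraMap ℚ ℂ) + (d / 2) • S.Q.map (algebraMap ℚ ℂ)) := by
              abel
          _ = 0 := by rw [hd, sub_self]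
      · intro X hX
        rw [Matrix.sub_mul, Matrix.mul_sub, hyX X hX, Matrix.smul_mul, Matrix.mul_smul,
          Matrix.one_mul, Matrix.mul_one]
  · by_cases hw : w = 0
    · have hformA : S.AbsAt σ (formT S.Q) := by
        rcases hcase with h1 | h1 | h1
        · exact absurd h1 hmn
        · exact absurd hw h1
        · exact h1
      have hform : S.V.Hodge (formT S.Q) := ((st_KPL r ℂ S.Q S.V.D hdet).2).mpr (by
        rw [hrel, hw, Int.cast_zero, zero_smul])
      refine st_PRA r S σ m n t (fun g hg => ?_) (fun y hy => ?_)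
      · have hd := (st_SML r ℂ S.Q S.Q g hdet hdet).2 (hg 0 2 _ hform hformA).symm
        exact hF2 hsize g hd fun X hX => H12.comm_of_fix (hg 1 1 _ (hend X hX) (hendA X hX))
      · have hd := ((st_KPL r ℂ S.Q y hdet).2).mp (hy 0 2 _ hform hformA)
        refine hF1 y hd fun X hX => ?_
        have h1 := hy 1 1 _ (hend X hX) (hendA X hX)
        rw [up_t11] at h1
        exact kill_t11.mp h1
    · have ht0 : t = 0 := st_WT0 r m n S.V w t hpure hw hmn ht
      have h0 : ∀ (K : Type) [Field K] [Algebra ℚ K], up K t = 0 := by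
        intro K _ _
        rw [ht0]
        ext i j
        simp [up]
      refine st_PRA r S σ m n t (fun g _ => ?_) (fun y _ => ?_)
      · rw [h0]
        unfold act
        rw [Matrix.mul_zero, Matrix.zero_mul]
      · rw [h0, Matrix.mul_zero, Matrix.zero_mul]

end EH
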